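import Mathlib
import Pool.Agent.X279.SkewLaurent

/-!
# Von Neumann regular skew Laurent series rings are Artinian

If `R = A((x, φ))` is von Neumann regular, then `R` is semisimple Artinian.
-/

set_option autoImplicit false

namespace Pool.Agent.Results.MP_20d9b9_al.RegularArtinian

open Pool.Agent.X279

/-- Von Neumann regular rings. -/
def IsRegular (R : Type*) [Ring R] : Prop := ∀ r : R, ∃ s : R, r = r * s * r

section ring

variable {A : Type*} [Ring A]

/-- In a regular ring, `A g + A c` is generated by an idempotent if `g` is idempotent. -/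
theorem exists_idem_sup (hA : IsRegular A) (g c : A) (hg : g * g = g) :
    ∃ f : A, f * f = f ∧ g * f = 0 ∧ f * g = 0 ∧ (c * (1 - g) ≠ 0 → f ≠ 0) ∧
      f ∈ Ideal.span {g} ⊔ Ideal.span {c} ∧
      Ideal.span {g} ⊔ Ideal.span {c} = Ideal.span {g + f} := by
  obtain ⟨y, hy⟩ := hA (c * (1 - g))
  set d := c * (1 - g) with hd
  have h1g : (1 - g) * (1 - g) = 1 - g := by
    have : (1 - g) * (1 - g) = 1 - g - g + g * g := by noncomm_ring
    rw [this, hg]; abel
  have hdg : d * (1 - g) = d := by rw [hd, mul_assoc, h1g]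
  have hg1 : g * (1 - g) = 0 := by rw [mul_sub, mul_one, hg, sub_self]
  have h1g' : (1 - g) * g = 0 := by rw [sub_mul, one_mul, hg, sub_self]
  set f := (1 - g) * y * d with hf
  have hff : f * f = f := by
    calc f * f = (1 - g) * y * (d * (1 - g) * y * d) := by rw [hf]; noncomm_ring
      _ = (1 - g) * y * (d * y * d) := by rw [hdg]
      _ = f := by rw [← hy, hf]
  have hgf : g * f = 0 := by
    calc g * f = (g * (1 - g)) * (y * d) := by rw [hf]; simp only [mul_assoc]
      _ = 0 := by rw [hg1, zero_mul]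
  have hfg : f * g = 0 := by
    calc f * g = (1 - g) * y * (c * ((1 - g) * g)) := by rw [hf, hd]; simp only [mul_assoc]
      _ = 0 := by rw [h1g', mul_zero, mul_zero]
  have hdf : d * f = d := by
    calc d * f = (d * (1 - g)) * y * d := by rw [hf]; simp only [mul_assoc]
      _ = d := by rw [hdg, ← hy]
  have hfmem : f ∈ Ideal.span {g} ⊔ Ideal.span {c} := by
    have : f = (1 - g) * y * c - (1 - g) * y * c * g := by rw [hf, hd]; noncomm_ring
    rw [this]
    exact sub_mem (Ideal.mem_sup_right (Ideal.mul_mem_left _ _ (Ideal.mem_span_singleton_self c)))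
      (Ideal.mem_sup_left (Ideal.mul_mem_left _ _ (Ideal.mem_span_singleton_self g)))
  refine ⟨f, hff, hgf, hfg, ?_, hfmem, ?_⟩
  · intro hd0 hf0
    rw [hf0, mul_zero] at hdf
    exact hd0 hdf.symm
  · apply le_antisymm
    · refine sup_le ?_ ?_
      · rw [Ideal.span_singleton_le_iff_mem]
        have h := Ideal.mul_mem_left (Ideal.span {g + f}) g (Ideal.mem_span_singleton_self (g + f))
        rwa [mul_add, hg, hgf, add_zero] at h
      · rw [Ideal.span_singleton_le_iff_mem]
        have h := Ideal.mul_mem_left (Ideal.span {g + f}) (c * g + d)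
          (Ideal.mem_span_singleton_self (g + f))
        have : (c * g + d) * (g + f) = c := by
          have e1 : (c * g + d) * (g + f) = c * (g * g) + c * (g * f) + d * g + d * f := by
            noncomm_ring
          have e2 : d * g = 0 := by rw [hd, mul_assoc, h1g', mul_zero]
          rw [e1, hg, hgf, e2, hdf, hd]
          noncomm_ring
        rwa [this] at h
    · rw [Ideal.span_singleton_le_iff_mem]
      exact add_mem (Ideal.mem_sup_left (Ideal.mem_span_singleton_self g)) hfmem

/-- Infinite families of orthogonal nonzero idempotents. -/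
def InfOrth (e : ℕ → A) : Prop :=
  (∀ i, e i ≠ 0) ∧ (∀ i, e i * e i = e i) ∧ ∀ i j, i ≠ j → e i * e j = 0

/-- A regular ring without infinite families of orthogonal idempotents: all left ideals are
generated by idempotents. -/
theorem exists_idem_of_no_infOrth (hA : IsRegular A) (hno : ∀ e : ℕ → A, ¬ InfOrth e)
    (I : Ideal A) : ∃ g : A, g * g = g ∧ I = Ideal.span {g} := by
  classical
  by_contra hcon
  push Not at hcon
  have step : ∀ g : {g : A // g * g = g ∧ g ∈ I}, ∃ f : A, f ≠ 0 ∧ f * f = f ∧ g.1 * f = 0 ∧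
      f * g.1 = 0 ∧ f ∈ I := by
    rintro ⟨g, hg, hgI⟩
    have hle : Ideal.span {g} ≤ I := (Ideal.span_singleton_le_iff_mem I).2 hgI
    have hne : ¬ I ≤ Ideal.span {g} := fun h => hcon g hg (le_antisymm h hle)
    obtain ⟨c, hcI, hc⟩ := Set.not_subset.1 hne
    obtain ⟨f, hff, hgf, hfg, hne', hmem, -⟩ := exists_idem_sup hA g c hg
    refine ⟨f, hne' ?_, hff, hgf, hfg, ?_⟩
    · intro h0
      apply hc
      have : c = c * g := by
        rw [mul_sub, mul_one] at h0
        exact sub_eq_zero.1 h0
      rw [this]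
      exact Ideal.mul_mem_left _ _ (Ideal.mem_span_singleton_self g)
    · refine (sup_le hle ?_) hmem
      exact (Ideal.span_singleton_le_iff_mem I).2 hcI
  choose F hF using step
  let G : ℕ → {g : A // g * g = g ∧ g ∈ I} := fun n => Nat.rec ⟨0, by simp, I.zero_mem⟩
    (fun _ g => ⟨g.1 + F g, by
      obtain ⟨-, h2, h3, h4, -⟩ := hF g
      have : (g.1 + F g) * (g.1 + F g) = g.1 * g.1 + g.1 * F g + F g * g.1 + F g * F g := by
        noncomm_ring
      rw [this, h2, h3, h4, g.2.1]
      abel, I.add_mem g.2.2 (hF g).2.2.2.2⟩) n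
  have hGs : ∀ n, (G (n + 1)).1 = (G n).1 + F (G n) := fun n => rfl
  set e : ℕ → A := fun n => F (G n) with he
  have hGe : ∀ m n, m < n → e m * (G n).1 = e m ∧ (G n).1 * e m = e m := by
    intro m n hmn
    induction n, hmn using Nat.le_induction with
    | base =>
      obtain ⟨h1, h2, h3, h4, -⟩ := hF (G m)
      rw [hGs, mul_add, add_mul]
      simp only [he]
      rw [h2, h3, h4, zero_add]
      exact ⟨rfl, rfl⟩
    | succ n hn ih =>
      obtain ⟨h1, h2, h3, h4, -⟩ := hF (G n)
      rw [hGs, mul_add, add_mul, ih.1, ih.2]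
      constructor
      · have : e m * F (G n) = 0 := by
          rw [← ih.1, mul_assoc, h3, mul_zero]
        rw [this, add_zero]
      · have : F (G n) * e m = 0 := by
          rw [← ih.2, ← mul_assoc, h4, zero_mul]
        rw [this, add_zero]
  refine hno e ⟨fun i => (hF _).1, fun i => (hF _).2.1, fun i j hij => ?_⟩
  rcases lt_or_gt_of_ne hij with h | h
  · rw [← (hGe i j h).1, mul_assoc]
    have : (G j).1 * e j = 0 := (hF (G j)).2.2.1
    rw [this, mul_zero]
  · rw [← (hGe j i h).2, ← mul_assoc]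
    have : e i * (G i).1 = 0 := (hF (G i)).2.2.2.1
    rw [this, zero_mul]

end ring

section laurent

variable {A : Type*} [Ring A] {φ : RingAut A}

theorem coeff_C_mul (a : A) (f : SkewLaurent φ) (n : ℤ) :
    (SkewLaurent.C a * f).coeff n = a * f.coeff n := by
  have := SkewLaurent.coeff_single_mul (φ := φ) 0 a f n
  rw [sub_zero, zpow_zero] at this
  exact this

theorem coeff_mul_C (f : SkewLaurent φ) (a : A) (n : ℤ) :
    (f * SkewLaurent.C a).coeff n = f.coeff n * (φ ^ n) a := by
  have := SkewLaurent.coeff_mul_single (φ := φ) f 0 a n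
  rw [sub_zero] at this
  exact this

/-- The left ideal of the coefficients at `x⁰` of the power series in a left ideal. -/
def lead (I : Ideal (SkewLaurent φ)) : Ideal A where
  carrier := {a | ∃ f ∈ I, (∀ n < 0, f.coeff n = 0) ∧ f.coeff 0 = a}
  zero_mem' := ⟨0, I.zero_mem, fun _ _ => rfl, rfl⟩
  add_mem' := by
    rintro a b ⟨f, hf, hf0, rfl⟩ ⟨g, hg, hg0, rfl⟩
    exact ⟨f + g, I.add_mem hf hg, fun n hn => by
      rw [SkewLaurent.coeff_add, hf0 n hn, hg0 n hn, add_zero], rfl⟩
  smul_mem' := by
    rintro c a ⟨f, hf, hf0, rfl⟩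
    exact ⟨SkewLaurent.C c * f, I.mul_mem_left _ hf, fun n hn => by
      rw [coeff_C_mul, hf0 n hn, mul_zero], by rw [coeff_C_mul]; rfl⟩

/-- If all left ideals of `A` are generated by idempotents, then `A((x, φ))` is semisimple. -/
theorem isSemisimpleRing_of (h : ∀ I : Ideal A, ∃ g : A, g * g = g ∧ I = Ideal.span {g}) :
    IsSemisimpleRing (SkewLaurent φ) := by
  classical
  have key : ∀ I : Ideal (SkewLaurent φ), ∃ (e : A) (u : (SkewLaurent φ)ˣ), e * e = e ∧
      I = Ideal.span {SkewLaurent.C e * (u : SkewLaurent φ)} := by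
    intro I
    obtain ⟨e, he, hI⟩ := h (lead I)
    obtain ⟨f, hfI, hf0, hfe⟩ : e ∈ lead I := by rw [hI]; exact Ideal.mem_span_singleton_self e
    have hCe : (SkewLaurent.C e : SkewLaurent φ) * SkewLaurent.C e = SkewLaurent.C e := by
      rw [← map_mul, he]
    have hC1 : (SkewLaurent.C e : SkewLaurent φ) * SkewLaurent.C (1 - e) = 0 := by
      rw [← map_mul, mul_sub, mul_one, he, sub_self, map_zero]
    have hC1' : (SkewLaurent.C (1 - e) : SkewLaurent φ) * SkewLaurent.C e = 0 := by
      rw [← map_mul, sub_mul, one_mul, he, sub_self, map_zero]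
    set w : SkewLaurent φ := SkewLaurent.C e * f + SkewLaurent.C (1 - e) with hw
    have hC : ∀ (a : A) (n : ℤ), (SkewLaurent.C a : SkewLaurent φ).coeff n = if n = 0 then a else 0 :=
      fun a n => rfl
    have hwu : IsUnit w := by
      refine SkewLaurent.isUnit_of_coeff_zero w (fun n hn => ?_) ?_
      · rw [hw, SkewLaurent.coeff_add, coeff_C_mul, hf0 n hn, hC, if_neg (by omega), mul_zero,
          add_zero]
      · rw [hw, SkewLaurent.coeff_add, coeff_C_mul, hfe, hC, if_pos rfl, he, add_sub_cancel]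
        exact isUnit_one
    obtain ⟨u, hu⟩ := hwu
    have heu : SkewLaurent.C e * (u : SkewLaurent φ) = SkewLaurent.C e * f := by
      rw [hu, hw, mul_add, ← mul_assoc, hCe, hC1, add_zero]
    have heuI : SkewLaurent.C e * (u : SkewLaurent φ) ∈ I := by
      rw [heu]
      exact I.mul_mem_left _ hfI
    have hu0 : ∀ n < 0, (u : SkewLaurent φ).coeff n = 0 := by
      intro n hn
      rw [hu, hw, SkewLaurent.coeff_add, coeff_C_mul, hf0 n hn, hC, if_neg (by omega), mul_zero,
        add_zero]
    have hu1 : (u : SkewLaurent φ).coeff 0 = 1 := by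
      rw [hu, hw, SkewLaurent.coeff_add, coeff_C_mul, hfe, hC, if_pos rfl, he, add_sub_cancel]
    refine ⟨e, u, he, le_antisymm ?_ ((Ideal.span_singleton_le_iff_mem I).2 heuI)⟩
    intro g hg
    set v : SkewLaurent φ := g * (↑u⁻¹ : SkewLaurent φ) * SkewLaurent.C (1 - e) with hv
    have hvu : v * (u : SkewLaurent φ)
        = g - g * (↑u⁻¹ : SkewLaurent φ) * (SkewLaurent.C e * (u : SkewLaurent φ)) := by
      rw [hv, map_sub, map_one, mul_sub, mul_one, sub_mul, mul_assoc g, Units.inv_mul, mul_one,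
        mul_assoc (g * (↑u⁻¹ : SkewLaurent φ))]
    have hvI : v * (u : SkewLaurent φ) ∈ I := by
      rw [hvu]
      exact I.sub_mem hg (I.mul_mem_left _ heuI)
    have hve : v * SkewLaurent.C e = 0 := by
      rw [hv, mul_assoc, hC1', mul_zero]
    have hv0 : v = 0 := by
      by_contra hvne
      have hex : ∃ n, v.coeff n ≠ 0 := by
        by_contra hcon
        push Not at hcon
        exact hvne (SkewLaurent.ext (funext hcon))
      obtain ⟨a, ha⟩ := v.bdd
      obtain ⟨m, hm, hmin⟩ := Int.exists_least_of_bdd (P := fun n => v.coeff n ≠ 0)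
        ⟨a, fun z hz => by
          by_contra hlt
          exact hz (ha z (not_le.1 hlt))⟩ hex
      have hlow : ∀ n < m, v.coeff n = 0 := by
        intro n hn
        by_contra hne
        exact absurd (hmin n hne) (not_le.2 hn)
      -- the series `x^{-m} v u`
      set z : SkewLaurent φ := SkewLaurent.single (-m) 1 * (v * (u : SkewLaurent φ)) with hz
      have hzI : z ∈ I := by
        rw [hz]
        exact I.mul_mem_left _ hvI
      have hzn : ∀ n : ℤ, z.coeff n = (φ ^ (-m)) ((v * (u : SkewLaurent φ)).coeff (n + m)) := by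
        intro n
        rw [hz, SkewLaurent.coeff_single_mul, one_mul, sub_neg_eq_add]
      have hvun : ∀ n < m, (v * (u : SkewLaurent φ)).coeff n = 0 := by
        intro n hn
        rw [SkewLaurent.coeff_mul_eq_sum v u hlow hu0 n, Finset.Icc_eq_empty (by omega),
          Finset.sum_empty]
      have hvum : (v * (u : SkewLaurent φ)).coeff m = v.coeff m := by
        rw [SkewLaurent.coeff_mul_eq_sum v u hlow hu0 m, sub_zero, Finset.Icc_self,
          Finset.sum_singleton, sub_self, hu1, map_one, mul_one]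
      have hzlead : (φ ^ (-m)) (v.coeff m) ∈ lead I := by
        refine ⟨z, hzI, fun n hn => ?_, ?_⟩
        · rw [hzn, hvun _ (by omega), map_zero]
        · rw [hzn, zero_add, hvum]
      rw [hI] at hzlead
      obtain ⟨b, hb⟩ := Ideal.mem_span_singleton'.1 hzlead
      have h1 : (φ ^ (-m)) (v.coeff m) * e = (φ ^ (-m)) (v.coeff m) := by
        rw [← hb, mul_assoc, he]
      have h2 : v.coeff m * (φ ^ m) e = 0 := by
        rw [← coeff_mul_C, hve]
        rfl
      have h3 : (φ ^ (-m)) (v.coeff m) * e = 0 := by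
        have h4 := congrArg (φ ^ (-m)) h2
        rw [map_mul, map_zero, ← RingAut.mul_apply, ← zpow_add, neg_add_cancel, zpow_zero,
          RingAut.one_apply] at h4
        exact h4
      rw [h3] at h1
      apply hm
      have h5 := congrArg (φ ^ m) h1
      rw [map_zero, ← RingAut.mul_apply, ← zpow_add, add_neg_cancel, zpow_zero,
        RingAut.one_apply] at h5
      exact h5.symm
    have hg' : g = g * (↑u⁻¹ : SkewLaurent φ) * (SkewLaurent.C e * (u : SkewLaurent φ)) := by
      rw [hv0, zero_mul] at hvu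
      exact sub_eq_zero.1 hvu.symm
    rw [hg']
    exact Ideal.mul_mem_left _ _ (Ideal.mem_span_singleton_self _)
  have hc : ComplementedLattice (Ideal (SkewLaurent φ)) := by
    constructor
    intro I
    obtain ⟨e, u, he, rfl⟩ := key I
    have hC1' : (SkewLaurent.C (1 - e) : SkewLaurent φ) * SkewLaurent.C e = 0 := by
      rw [← map_mul, sub_mul, one_mul, he, sub_self, map_zero]
    refine ⟨Ideal.span {SkewLaurent.C (1 - e) * (u : SkewLaurent φ)}, ?_, ?_⟩
    · rw [Submodule.disjoint_def]
      intro x hx hy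
      obtain ⟨y, rfl⟩ := Ideal.mem_span_singleton'.1 hx
      obtain ⟨z, hz⟩ := Ideal.mem_span_singleton'.1 hy
      have h1 : z * SkewLaurent.C (1 - e) = y * SkewLaurent.C e := by
        have := congrArg (fun t => t * (↑u⁻¹ : SkewLaurent φ)) hz
        simp only [mul_assoc, Units.mul_inv, mul_one] at this
        exact this
      have h2 : y * SkewLaurent.C e = 0 := by
        have := congrArg (fun t => t * (SkewLaurent.C e : SkewLaurent φ)) h1
        simp only [mul_assoc, hC1', mul_zero] at this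
        rw [← map_mul, he] at this
        exact this.symm
      rw [← mul_assoc, h2, zero_mul]
    · rw [codisjoint_iff, Ideal.eq_top_iff_one]
      have h1 : (u : SkewLaurent φ) ∈ Ideal.span {SkewLaurent.C e * (u : SkewLaurent φ)} ⊔
          Ideal.span {SkewLaurent.C (1 - e) * (u : SkewLaurent φ)} := by
        have h2 : (u : SkewLaurent φ) = SkewLaurent.C e * (u : SkewLaurent φ)
            + SkewLaurent.C (1 - e) * (u : SkewLaurent φ) := by
          rw [← add_mul, ← map_add, add_sub_cancel, map_one, one_mul]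
        have h4 : SkewLaurent.C e * (u : SkewLaurent φ) + SkewLaurent.C (1 - e) * (u : SkewLaurent φ)
            ∈ Ideal.span {SkewLaurent.C e * (u : SkewLaurent φ)} ⊔
              Ideal.span {SkewLaurent.C (1 - e) * (u : SkewLaurent φ)} :=
          add_mem (Ideal.mem_sup_left (Ideal.mem_span_singleton_self _))
            (Ideal.mem_sup_right (Ideal.mem_span_singleton_self _))
        rwa [← h2] at h4
      have h3 := Ideal.mul_mem_left _ (↑u⁻¹ : SkewLaurent φ) h1
      rwa [Units.inv_mul] at h3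
  exact { toComplementedLattice := hc }

/-- The coefficient ring of a regular skew Laurent series ring is regular. -/
theorem isRegular_coeff (hR : IsRegular (SkewLaurent φ)) : IsRegular A := by
  intro a
  obtain ⟨s, hs⟩ := hR (SkewLaurent.C a)
  refine ⟨s.coeff 0, ?_⟩
  have h := congrArg (fun z : SkewLaurent φ => z.coeff 0) hs
  simp only [coeff_mul_C, coeff_C_mul, zpow_zero, RingAut.one_apply] at h
  have h0 : (SkewLaurent.C a : SkewLaurent φ).coeff 0 = a := rfl
  rw [h0] at h
  exact h

/-- The key finiteness property. -/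
theorem key_finite (hR : IsRegular (SkewLaurent φ)) (e : ℕ → A) (he : ∀ i, e i * e i = e i)
    (horth : ∀ i j, i ≠ j → e i * e j = 0) (n : ℕ → ℕ) (hn : StrictMono n) (c : ℕ → A)
    (hc : ∀ i, e i * (φ ^ (n i : ℤ)) (c i) = (φ ^ (n i : ℤ)) (c i)) :
    ∃ N : ℕ, ∀ i, c i ∈ Ideal.span (c '' {j | j < N}) := by
  classical
  set b : ℕ → A := fun i => (φ ^ (n i : ℤ)) (c i) with hb
  -- the series `∑ bᵢ x^{nᵢ}`
  let r : SkewLaurent φ :=
    { coeff := fun z => if h : ∃ i, (n i : ℤ) = z then b h.choose else 0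
      bdd := ⟨0, fun z hz => dif_neg (by rintro ⟨i, hi⟩; omega)⟩ }
  have hrn : ∀ i, r.coeff (n i : ℤ) = b i := by
    intro i
    have hex : ∃ j, (n j : ℤ) = (n i : ℤ) := ⟨i, rfl⟩
    have h1 : r.coeff (n i : ℤ) = b hex.choose := dif_pos hex
    rw [h1]
    congr 1
    exact hn.injective (by exact_mod_cast hex.choose_spec)
  have hr0 : ∀ z, (¬ ∃ i, (n i : ℤ) = z) → r.coeff z = 0 := fun z hz => dif_neg hz
  have her : ∀ i, SkewLaurent.C (e i) * r = SkewLaurent.single (n i : ℤ) (b i) := by
    intro i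
    ext z
    rw [coeff_C_mul, SkewLaurent.coeff_single]
    by_cases hz : ∃ j, (n j : ℤ) = z
    · obtain ⟨j, rfl⟩ := hz
      rw [hrn]
      by_cases hij : j = i
      · subst hij
        rw [if_pos rfl]
        exact hc j
      · rw [if_neg (fun h => hij (hn.injective (by exact_mod_cast h)))]
        have : b j = e j * b j := (hc j).symm
        rw [this, ← mul_assoc, horth i j (Ne.symm hij), zero_mul]
    · rw [hr0 z hz, mul_zero, if_neg (fun h => hz ⟨i, h.symm⟩)]
  obtain ⟨s, hs⟩ := hR r
  set t : SkewLaurent φ := s * r with ht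
  have h1 : ∀ i, c i = c i * t.coeff 0 := by
    intro i
    have h2 : (SkewLaurent.single (n i : ℤ) (b i) : SkewLaurent φ)
        = SkewLaurent.single (n i : ℤ) (b i) * t := by
      have : SkewLaurent.C (e i) * r = SkewLaurent.C (e i) * r * t := by
        calc SkewLaurent.C (e i) * r = SkewLaurent.C (e i) * (r * s * r) := by rw [← hs]
          _ = SkewLaurent.C (e i) * r * t := by rw [ht]; simp only [mul_assoc]
      rwa [her] at this
    have h3 := congrArg (fun z : SkewLaurent φ => z.coeff (n i : ℤ)) h2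
    simp only [SkewLaurent.coeff_single_self, SkewLaurent.coeff_single_mul, sub_self] at h3
    rw [hb] at h3
    simp only at h3
    rw [← map_mul] at h3
    exact (φ ^ (n i : ℤ)).injective h3
  obtain ⟨a, ha⟩ := s.bdd
  set N : ℕ := (-a).toNat + 1 with hN
  refine ⟨N, fun i => ?_⟩
  have ht0 : t.coeff 0 ∈ Ideal.span (c '' {j | j < N}) := by
    have hrneg : ∀ z < 0, r.coeff z = 0 := fun z hz => hr0 z (by rintro ⟨i, hi⟩; omega)
    rw [ht, SkewLaurent.coeff_mul_eq_sum s r ha hrneg 0, sub_zero]
    refine Submodule.sum_mem _ fun z hz => ?_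
    rw [Finset.mem_Icc] at hz
    refine Ideal.mul_mem_left _ _ ?_
    by_cases hex : ∃ j, (n j : ℤ) = 0 - z
    · obtain ⟨j, hj⟩ := hex
      have hle : j ≤ n j := hn.id_le j
      have hval : (φ ^ z) (r.coeff (0 - z)) = c j := by
        rw [← hj, hrn, hb]
        simp only
        rw [← RingAut.mul_apply, ← zpow_add, show z + (n j : ℤ) = 0 by omega, zpow_zero,
          RingAut.one_apply]
      rw [hval]
      exact Ideal.subset_span ⟨j, show j < N by omega, rfl⟩
    · rw [hr0 _ hex, map_zero]
      exact zero_mem _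
  rw [h1 i]
  exact Ideal.mul_mem_left _ _ ht0

/-- The greedy construction. -/
theorem greedy (hR : IsRegular (SkewLaurent φ)) (e : ℕ → A) (he : ∀ i, e i * e i = e i)
    (horth : ∀ i j, i ≠ j → e i * e j = 0) (Good : Ideal A → Prop) (h0 : Good ⊥)
    (hstep : ∀ L, Good L → ∀ K : ℕ, ∃ k m : ℕ, K ≤ k ∧ K ≤ m ∧ ∃ c : A,
      e k * (φ ^ (m : ℤ)) c = (φ ^ (m : ℤ)) c ∧ c ∉ L ∧ Good (L ⊔ Ideal.span {c})) : False := by
  classical
  have hstep' : ∀ p : {L : Ideal A // Good L} × ℕ, ∃ q : ℕ × ℕ × A, p.2 ≤ q.1 ∧ p.2 ≤ q.2.1 ∧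
      e q.1 * (φ ^ (q.2.1 : ℤ)) q.2.2 = (φ ^ (q.2.1 : ℤ)) q.2.2 ∧ q.2.2 ∉ p.1.1 ∧
        Good (p.1.1 ⊔ Ideal.span {q.2.2}) := by
    rintro ⟨⟨L, hL⟩, K⟩
    obtain ⟨k, m, hk, hm, c, h1, h2, h3⟩ := hstep L hL K
    exact ⟨(k, m, c), hk, hm, h1, h2, h3⟩
  choose Q hQ using hstep'
  let st : ℕ → {L : Ideal A // Good L} × ℕ := fun i => Nat.rec (⟨⊥, h0⟩, 0)
    (fun _ p => (⟨p.1.1 ⊔ Ideal.span {(Q p).2.2}, (hQ p).2.2.2.2⟩, max (Q p).1 (Q p).2.1 + 1)) i
  have hst1 : ∀ i, (st (i + 1)).1.1 = (st i).1.1 ⊔ Ideal.span {(Q (st i)).2.2} := fun i => rfl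
  have hst2 : ∀ i, (st (i + 1)).2 = max (Q (st i)).1 (Q (st i)).2.1 + 1 := fun i => rfl
  set k : ℕ → ℕ := fun i => (Q (st i)).1 with hk
  set n : ℕ → ℕ := fun i => (Q (st i)).2.1 with hn
  set c : ℕ → A := fun i => (Q (st i)).2.2 with hc
  have hkm : StrictMono k := by
    refine strictMono_nat_of_lt_succ fun i => ?_
    have h1 := (hQ (st (i + 1))).1
    rw [hst2] at h1
    have : k i ≤ max (Q (st i)).1 (Q (st i)).2.1 := le_max_left _ _
    simp only [hk] at this ⊢
    omega
  have hnm : StrictMono n := by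
    refine strictMono_nat_of_lt_succ fun i => ?_
    have h1 := (hQ (st (i + 1))).2.1
    rw [hst2] at h1
    have : n i ≤ max (Q (st i)).1 (Q (st i)).2.1 := le_max_right _ _
    simp only [hn] at this ⊢
    omega
  have hspan : ∀ i, Ideal.span (c '' {j | j < i}) ≤ (st i).1.1 := by
    intro i
    rw [Ideal.span_le]
    rintro _ ⟨j, hj, rfl⟩
    have hj' : j < i := hj
    have : ∀ m, j < m → c j ∈ (st m).1.1 := by
      intro m hm
      induction m, hm using Nat.le_induction with
      | base =>
        rw [hst1]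
        exact Ideal.mem_sup_right (Ideal.mem_span_singleton_self _)
      | succ m _ ih =>
        rw [hst1]
        exact Ideal.mem_sup_left ih
    exact this i hj'
  obtain ⟨N, hN⟩ := key_finite hR (fun i => e (k i)) (fun i => he _)
    (fun i j hij => horth _ _ (fun h => hij (hkm.injective h))) n hnm c
    (fun i => (hQ (st i)).2.2.1)
  exact (hQ (st N)).2.2.2.1 (hspan N (hN N))

/-- Primitive idempotents. -/
def Prim (h : A) : Prop :=
  h ≠ 0 ∧ h * h = h ∧ ∀ f : A, f * f = f → h * f = f → f * h = f → f = 0 ∨ f = h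

theorem Prim.map {h : A} (hh : Prim h) (ψ : RingAut A) : Prim (ψ h) := by
  obtain ⟨h0, h1, h2⟩ := hh
  refine ⟨fun h => h0 (by simpa using h), by rw [← map_mul, h1], fun f hf hf1 hf2 => ?_⟩
  have e1 : ψ (ψ⁻¹ f) = f := by rw [← RingAut.mul_apply, mul_inv_cancel, RingAut.one_apply]
  rcases h2 (ψ⁻¹ f) (by rw [← map_mul, hf])
    (ψ.injective (by rw [map_mul, e1, hf1])) (ψ.injective (by rw [map_mul, e1, hf2])) with h | h
  · left
    rw [← e1, h, map_zero]
  · right
    rw [← e1, h]

/-- A primitive idempotent of a regular ring generates a Noetherian (in fact simple) module. -/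
theorem Prim.isNoetherian (hA : IsRegular A) {q : A} (hq : Prim q) :
    IsNoetherian A (Ideal.span {q}) := by
  obtain ⟨h0, h1, h2⟩ := hq
  rw [isNoetherian_submodule]
  intro s hs
  by_cases hbot : s = ⊥
  · rw [hbot]
    exact Submodule.fg_bot
  · obtain ⟨x, hx, hx0⟩ := Submodule.exists_mem_ne_zero_of_ne_bot hbot
    obtain ⟨a, ha⟩ := Ideal.mem_span_singleton'.1 (hs hx)
    have hxq : x * q = x := by rw [← ha, mul_assoc, h1]
    obtain ⟨y, hy⟩ := hA x
    set f := q * y * x with hf
    have hff : f * f = f := by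
      calc f * f = q * y * ((x * q) * y * x) := by rw [hf]; simp only [mul_assoc]
        _ = f := by rw [hxq, ← hy]
    have hf0 : f ≠ 0 := by
      intro hf0
      apply hx0
      calc x = (x * q) * y * x := by rw [hxq, ← hy]
        _ = x * f := by rw [hf]; simp only [mul_assoc]
        _ = 0 := by rw [hf0, mul_zero]
    have hqf : q * f = f := by rw [hf, ← mul_assoc, ← mul_assoc, h1]
    have hfq : f * q = f := by rw [hf, mul_assoc, hxq]
    have hfeq : f = q := (h2 f hff hqf hfq).resolve_left hf0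
    have hqs : q ∈ s := by
      rw [← hfeq, hf]
      exact s.smul_mem (q * y) hx
    have : s = Ideal.span {q} := le_antisymm hs ((Ideal.span_singleton_le_iff_mem s).2 hqs)
    rw [this]
    exact ⟨{q}, by simp [Ideal.span]⟩

/-- Noetherian left ideals do not contain infinitely many orthogonal idempotents. -/
theorem not_infOrth_of_noetherian (L : Ideal A) (hL : IsNoetherian A L) (q : ℕ → A)
    (hq : InfOrth q) (hmem : ∀ i, q i ∈ L) : False := by
  classical
  have hU : (Submodule.span A (Set.range q)).FG := by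
    refine isNoetherian_submodule.1 hL _ ?_
    rw [Submodule.span_le]
    rintro _ ⟨i, rfl⟩
    exact hmem i
  rw [Submodule.fg_span_iff_fg_span_finset_subset] at hU
  obtain ⟨T, hT, hspan⟩ := hU
  -- all the elements of `T` are `q i` with `i < N`
  obtain ⟨N, hN⟩ : ∃ N : ℕ, ∀ x ∈ T, ∃ i < N, q i = x := by
    have : ∀ x ∈ T, ∃ i, q i = x := fun x hx => hT hx
    choose! ι hι using this
    refine ⟨T.sup ι + 1, fun x hx => ⟨ι x, Nat.lt_succ_of_le (Finset.le_sup hx), hι x hx⟩⟩
  have h1 : q N ∈ Submodule.span A (T : Set A) := by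
    rw [← hspan]
    exact Submodule.subset_span ⟨N, rfl⟩
  have h2 : ∀ x ∈ Submodule.span A (T : Set A), x * q N = 0 := by
    intro x hx
    induction hx using Submodule.span_induction with
    | mem x hx =>
      obtain ⟨i, hi, rfl⟩ := hN x hx
      exact hq.2.2 i N (by omega)
    | zero => rw [zero_mul]
    | add x y _ _ hx hy => rw [add_mul, hx, hy, add_zero]
    | smul a x _ hx => rw [smul_eq_mul, mul_assoc, hx, mul_zero]
  have h3 := h2 _ h1
  rw [hq.2.1] at h3
  exact hq.1 N h3

theorem zpow_neg_cancel (m : ℤ) (a : A) : (φ ^ m) ((φ ^ (-m)) a) = a := by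
  rw [← RingAut.mul_apply, ← zpow_add, add_neg_cancel, zpow_zero, RingAut.one_apply]

/-- Case A: infinitely many orthogonal primitive idempotents. -/
theorem caseA (hR : IsRegular (SkewLaurent φ)) (e : ℕ → A) (he : InfOrth e)
    (hprim : ∀ i, Prim (e i)) : False := by
  have hA := isRegular_coeff hR
  refine greedy hR e he.2.1 he.2.2 (fun L => IsNoetherian A L) inferInstance ?_
  intro L hL K
  have hex : ∃ k, K ≤ k ∧ (φ ^ (-(K : ℤ))) (e k) ∉ L := by
    by_contra hcon
    push Not at hcon
    refine not_infOrth_of_noetherian L hL (fun i => (φ ^ (-(K : ℤ))) (e (K + i))) ⟨?_, ?_, ?_⟩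
      (fun i => hcon _ (by omega))
    · intro i h
      exact he.1 (K + i) (by simpa using h)
    · intro i
      rw [← map_mul, he.2.1]
    · intro i j hij
      rw [← map_mul, he.2.2 _ _ (by omega), map_zero]
  obtain ⟨k, hk, hkL⟩ := hex
  refine ⟨k, K, hk, le_rfl, (φ ^ (-(K : ℤ))) (e k), ?_, hkL, ?_⟩
  · rw [zpow_neg_cancel, he.2.1]
  · have := ((hprim k).map (φ ^ (-(K : ℤ)))).isNoetherian hA
    exact isNoetherian_sup _ _

/-- Case B: infinitely many orthogonal idempotents containing no primitive idempotents. -/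
theorem caseB (hR : IsRegular (SkewLaurent φ)) (e : ℕ → A) (he : InfOrth e)
    (hprim : ∀ i h, Prim h → e i * h = h → h * e i = h → False) : False := by
  have hA := isRegular_coeff hR
  refine greedy hR e he.2.1 he.2.2 (fun L => (∃ g : A, g * g = g ∧ L = Ideal.span {g}) ∧
    ∀ K : ℕ, ∃ k m : ℕ, K ≤ k ∧ K ≤ m ∧ ∃ c : A,
      e k * (φ ^ (m : ℤ)) c = (φ ^ (m : ℤ)) c ∧ c ∉ L) ⟨⟨0, by simp, by simp⟩, ?_⟩ ?_
  · intro K
    refine ⟨K, K, le_rfl, le_rfl, (φ ^ (-(K : ℤ))) (e K), ?_, ?_⟩
    · rw [zpow_neg_cancel, he.2.1]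
    · intro h
      exact he.1 K (by simpa using h)
  · rintro L ⟨⟨g, hg, rfl⟩, hP⟩ K
    obtain ⟨k, m, hk, hm, c, hc, hcL⟩ := hP K
    refine ⟨k, m, hk, hm, ?_⟩
    set p := (φ ^ (-(m : ℤ))) (e k) with hp
    have hpp : p * p = p := by rw [hp, ← map_mul, he.2.1]
    have hiff : ∀ a : A, p * a = a → e k * (φ ^ (m : ℤ)) a = (φ ^ (m : ℤ)) a := by
      intro a ha
      rw [← ha, map_mul, hp, zpow_neg_cancel, ← mul_assoc, he.2.1]
    have hpc : p * c = c := by
      apply (φ ^ (m : ℤ)).injective
      rw [map_mul, hp, zpow_neg_cancel, hc]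
    have h1g' : (1 - g) * g = 0 := by rw [sub_mul, one_mul, hg, sub_self]
    have hg1 : g * (1 - g) = 0 := by rw [mul_sub, mul_one, hg, sub_self]
    set d := c * (1 - g) with hd
    have hd0 : d ≠ 0 := by
      intro h0
      apply hcL
      rw [hd, mul_sub, mul_one] at h0
      rw [sub_eq_zero.1 h0]
      exact Ideal.mul_mem_left _ _ (Ideal.mem_span_singleton_self g)
    have hpd : p * d = d := by rw [hd, ← mul_assoc, hpc]
    obtain ⟨y, hy⟩ := hA d
    set h := d * y * p with hh
    have hhd : h * d = d := by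
      rw [hh, mul_assoc, hpd, ← hy]
    have hhh : h * h = h := by
      calc h * h = (h * d) * y * p := by rw [hh]; simp only [mul_assoc]
        _ = h := by rw [hhd]
    have hph : p * h = h := by rw [hh, ← mul_assoc, ← mul_assoc, hpd]
    have hhp : h * p = h := by rw [hh, mul_assoc, hpp]
    have hh0 : h ≠ 0 := by
      intro h0
      rw [h0, zero_mul] at hhd
      exact hd0 hhd.symm
    -- `h` is not primitive
    have hnp : ¬ Prim h := by
      intro hpr
      refine hprim k _ (hpr.map (φ ^ (m : ℤ))) ?_ ?_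
      · exact hiff h hph
      · have := congrArg (φ ^ (m : ℤ)) hhp
        rw [map_mul, hp, zpow_neg_cancel] at this
        exact this
    have : ∃ f : A, f * f = f ∧ h * f = f ∧ f * h = f ∧ f ≠ 0 ∧ f ≠ h := by
      by_contra hcon
      push Not at hcon
      apply hnp
      refine ⟨hh0, hhh, fun f h1 h2 h3 => ?_⟩
      by_contra h4
      rw [not_or] at h4
      exact h4.2 (hcon f h1 h2 h3 h4.1)
    obtain ⟨f, hff, hhf, hfh, hf0, hfne⟩ := this
    set f' := h - f with hf'
    have hf'f' : f' * f' = f' := by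
      have : f' * f' = h * h - h * f - f * h + f * f := by rw [hf']; noncomm_ring
      rw [this, hhh, hhf, hfh, hff, hf']
      abel
    have hff' : f * f' = 0 := by rw [hf', mul_sub, hfh, hff, sub_self]
    have hf'f : f' * f = 0 := by rw [hf', sub_mul, hhf, hff, sub_self]
    have hhf' : h * f' = f' := by rw [hf', mul_sub, hhh, hhf]
    have hf'h : f' * h = f' := by rw [hf', sub_mul, hhh, hfh]
    have hf'0 : f' ≠ 0 := fun h0 => hfne (sub_eq_zero.1 h0).symm
    -- common properties of the two candidates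
    have hcand : ∀ f : A, h * f = f → f * h = f → f ≠ 0 →
        e k * (φ ^ (m : ℤ)) (f * c) = (φ ^ (m : ℤ)) (f * c) ∧ f * c ∉ Ideal.span {g} := by
      intro f hhf hfh hf0
      refine ⟨hiff _ ?_, ?_⟩
      · have : p * f = f := by rw [← hhf, ← mul_assoc, hph]
        rw [← mul_assoc, this]
      · intro hmem
        obtain ⟨a, ha⟩ := Ideal.mem_span_singleton'.1 hmem
        have h1 : f * d = 0 := by
          rw [hd, ← mul_assoc, ← ha, mul_assoc, hg1, mul_zero]
        apply hf0
        calc f = f * h := hfh.symm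
          _ = (f * d) * y * p := by rw [hh]; simp only [mul_assoc]
          _ = 0 := by rw [h1, zero_mul, zero_mul]
    -- the intersection
    have hinter : ∀ x, x ∈ Ideal.span {g} ⊔ Ideal.span {f * c} →
        x ∈ Ideal.span {g} ⊔ Ideal.span {f' * c} → x ∈ Ideal.span {g} := by
      intro x hx hx'
      obtain ⟨l, hl, z, hz, rfl⟩ := Submodule.mem_sup.1 hx
      obtain ⟨l', hl', z', hz', hzz⟩ := Submodule.mem_sup.1 hx'
      obtain ⟨a, rfl⟩ := Ideal.mem_span_singleton'.1 hl
      obtain ⟨a', rfl⟩ := Ideal.mem_span_singleton'.1 hl'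
      obtain ⟨b, rfl⟩ := Ideal.mem_span_singleton'.1 hz
      obtain ⟨b', rfl⟩ := Ideal.mem_span_singleton'.1 hz'
      have h1 : b' * f' * d = b * f * d := by
        have := congrArg (fun t => t * (1 - g)) hzz
        simp only [add_mul, mul_assoc, hg1, mul_zero, zero_add] at this
        rw [hd]
        simpa only [mul_assoc] using this
      have h2 : b' * f' = b * f := by
        have := congrArg (fun t => t * (y * p)) h1
        have e1 : ∀ b f : A, f * h = f → b * f * d * (y * p) = b * f := by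
          intro b f hfh
          calc b * f * d * (y * p) = b * (f * h) := by rw [hh]; simp only [mul_assoc]
            _ = b * f := by rw [hfh]
        simp only [e1 _ _ hf'h, e1 _ _ hfh] at this
        exact this
      have h3 : b * f = 0 := by
        have := congrArg (fun t => t * f) h2
        simp only [mul_assoc, hf'f, hff, mul_zero] at this
        exact this.symm
      have h4 : b * (f * c) = 0 := by rw [← mul_assoc, h3, zero_mul]
      rw [h4, add_zero]
      exact Ideal.mul_mem_left _ _ (Ideal.mem_span_singleton_self g)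
    have hidem : ∀ c : A, ∃ g' : A, g' * g' = g' ∧
        Ideal.span {g} ⊔ Ideal.span {c} = Ideal.span {g'} := by
      intro c
      obtain ⟨f, h1, h2, h3, -, -, h4⟩ := exists_idem_sup hA g c hg
      refine ⟨g + f, ?_, h4⟩
      have : (g + f) * (g + f) = g * g + g * f + f * g + f * f := by noncomm_ring
      rw [this, hg, h1, h2, h3]
      abel
    by_cases hP1 : ∀ K : ℕ, ∃ k m : ℕ, K ≤ k ∧ K ≤ m ∧ ∃ c' : A,
        e k * (φ ^ (m : ℤ)) c' = (φ ^ (m : ℤ)) c' ∧
          c' ∉ Ideal.span {g} ⊔ Ideal.span {f * c}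
    · exact ⟨f * c, (hcand f hhf hfh hf0).1, (hcand f hhf hfh hf0).2, hidem _, hP1⟩
    · refine ⟨f' * c, (hcand f' hhf' hf'h hf'0).1, (hcand f' hhf' hf'h hf'0).2, hidem _, ?_⟩
      by_contra hP2
      push Not at hP1 hP2
      obtain ⟨K1, hK1⟩ := hP1
      obtain ⟨K2, hK2⟩ := hP2
      obtain ⟨k', m', hk', hm', c', hc', hc'L⟩ := hP (max K1 K2)
      apply hc'L
      refine hinter c' ?_ ?_
      · exact hK1 k' m' (le_trans (le_max_left _ _) hk') (le_trans (le_max_left _ _) hm') c' hc'
      · exact hK2 k' m' (le_trans (le_max_right _ _) hk') (le_trans (le_max_right _ _) hm') c' hc'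

/-- The coefficient ring has no infinite families of orthogonal idempotents. -/
theorem no_infOrth (hR : IsRegular (SkewLaurent φ)) (e : ℕ → A) : ¬ InfOrth e := by
  intro he
  by_cases hcase : ∀ N : ℕ, ∃ k > N, ∃ h, Prim h ∧ e k * h = h ∧ h * e k = h
  · obtain ⟨κ, hκ, hP⟩ := Nat.exists_strictMono_subsequence hcase
    choose h hh1 hh2 hh3 using hP
    refine caseA hR h ⟨fun i => (hh1 i).1, fun i => (hh1 i).2.1, fun i j hij => ?_⟩ hh1
    rw [← hh3 i, ← hh2 j]
    have : e (κ i) * e (κ j) = 0 := he.2.2 _ _ (fun h => hij (hκ.injective h))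
    calc h i * e (κ i) * (e (κ j) * h j) = h i * (e (κ i) * e (κ j)) * h j := by
          simp only [mul_assoc]
      _ = 0 := by rw [this, mul_zero, zero_mul]
  · push Not at hcase
    obtain ⟨N, hN⟩ := hcase
    refine caseB hR (fun i => e (N + 1 + i)) ⟨fun i => he.1 _, fun i => he.2.1 _,
      fun i j hij => he.2.2 _ _ (by omega)⟩ ?_
    intro i h hh1 hh2 hh3
    exact hN (N + 1 + i) (by omega) h hh1 hh2 hh3

/-- **Affirmative answer to Q1**: if `A((x, φ))` is von Neumann regular, then it is left and right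
Artinian (and even semisimple). -/
theorem result {A : Type*} [Ring A] (φ : RingAut A) (hR : IsRegular (SkewLaurent φ)) :
    IsArtinianRing (SkewLaurent φ) ∧ IsArtinianRing (SkewLaurent φ)ᵐᵒᵖ ∧
      IsSemisimpleRing (SkewLaurent φ) := by
  have hss : IsSemisimpleRing (SkewLaurent φ) :=
    isSemisimpleRing_of (exists_idem_of_no_infOrth (isRegular_coeff hR) (no_infOrth hR))
  exact ⟨inferInstance, inferInstance, hss⟩

end laurent

end Pool.Agent.Results.MP_20d9b9_al.RegularArtinian
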